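import Mathlib

/-!
# Graded representations and their period matrices: subspaces rational on both sides

`k` is a subfield of `ℂ`, `L` a set of letters with positive degrees; an object is a finite
dimensional graded `k`-vector space with operators `σ l` raising the degree by `deg l`. The period
matrix is `A = (∑_w u_w σ_w) τ^degree`. If `1`, `τ^t` and the numbers `u_l`, `deg l = t`, are linearly
independent over `k` for all `t ≥ 1` (letters with `σ l ≠ 0`), then every pair of subspaces `W`, `W'`
with `A (W ⊗ ℂ) = W' ⊗ ℂ` is of the form `W = W'`, graded and stable by all `σ l`.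
-/

set_option autoImplicit false
set_option linter.unusedSectionVars false
set_option linter.style.haveILetI false

namespace Pool.Agent.TH426.MT

open Finset

/-- Functionals with prescribed values on an independent family. -/
theorem exists_functional {k : Type*} [Field k] {V : Type*} [AddCommGroup V] [Module k V]
    {I : Type*} {f : I → V} (hf : LinearIndependent k f) (i : I) :
    ∃ lam : V →ₗ[k] k, lam (f i) = 1 ∧ ∀ j, j ≠ i → lam (f j) = 0 := by
  classical
  obtain ⟨g, hg⟩ := LinearMap.exists_extend ((Finsupp.lapply i).comp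
    (hf.repr : Submodule.span k (Set.range f) →ₗ[k] I →₀ k))
  have key : ∀ j, g (f j) = if j = i then 1 else 0 := by
    intro j
    have h1 := LinearMap.congr_fun hg ⟨f j, Submodule.subset_span ⟨j, rfl⟩⟩
    have h2 : hf.repr ⟨f j, Submodule.subset_span ⟨j, rfl⟩⟩ = Finsupp.single j 1 :=
      hf.repr_eq_single j _ rfl
    simp only [LinearMap.comp_apply, Submodule.subtype_apply, LinearEquiv.coe_coe, h2,
      Finsupp.lapply_apply] at h1
    rw [h1, Finsupp.single_apply]
  refine ⟨g, ?_, fun j hj => ?_⟩
  · rw [key, if_pos rfl]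
  · rw [key, if_neg hj]

variable {k : Type*} [Field k] [Algebra k ℂ]
variable {L : Type*} {deg : L → ℕ}
variable {ι : Type*} [Fintype ι] [DecidableEq ι]

/-- The vector with complex entries. -/
def ext (v : ι → k) : ι → ℂ := fun i => algebraMap k ℂ (v i)

/-- The homogeneous component of degree `m`. -/
def pr (d : ι → ℤ) (m : ℤ) : (ι → k) →ₗ[k] (ι → k) where
  toFun v i := if d i = m then v i else 0
  map_add' v w := by ext i; simp only [Pi.add_apply]; split_ifs <;> simp
  map_smul' c v := by ext i; simp only [Pi.smul_apply, RingHom.id_apply]; split_ifs <;> simp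

theorem pr_apply (d : ι → ℤ) (m : ℤ) (v : ι → k) (i : ι) :
    pr d m v i = if d i = m then v i else 0 := rfl

/-- Weight of a word. -/
def wt (deg : L → ℕ) (w : List L) : ℕ := (w.map deg).sum

/-- The operator of a word. -/
def op (σ : L → Matrix ι ι k) (w : List L) : Matrix ι ι k := (w.map σ).prod

theorem op_nil (σ : L → Matrix ι ι k) : op σ [] = 1 := rfl

theorem op_cons (σ : L → Matrix ι ι k) (l : L) (w : List L) : op σ (l :: w) = σ l * op σ w := by
  simp [op]

theorem op_append (σ : L → Matrix ι ι k) (w w' : List L) :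
    op σ (w ++ w') = op σ w * op σ w' := by simp [op]

theorem op_deg {d : ι → ℤ} {σ : L → Matrix ι ι k}
    (hσ : ∀ l i j, σ l i j ≠ 0 → d i = d j + deg l) (w : List L) :
    ∀ i j, op σ w i j ≠ 0 → d i = d j + wt deg w := by
  induction w with
  | nil =>
    intro i j h
    rw [op_nil] at h
    by_cases hij : i = j
    · subst hij; simp [wt]
    · exact absurd (Matrix.one_apply_ne hij) h
  | cons l w ih =>
    intro i j h
    rw [op_cons, Matrix.mul_apply] at h
    obtain ⟨m, _, hm⟩ := Finset.exists_ne_zero_of_sum_ne_zero h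
    have h1 := hσ l i m (left_ne_zero_of_mul hm)
    have h2 := ih m j (right_ne_zero_of_mul hm)
    rw [h1, h2]
    simp only [wt, List.map_cons, List.sum_cons]
    push_cast
    ring

/-- Only finitely many words act nontrivially. -/
theorem words_finite {d : ι → ℤ} {σ : L → Matrix ι ι k} (hpos : ∀ l, 0 < deg l)
    (hσ : ∀ l i j, σ l i j ≠ 0 → d i = d j + deg l) (hfin : {l | σ l ≠ 0}.Finite) :
    {w : List L | op σ w ≠ 0}.Finite := by
  classical
  set T : Set L := {l | σ l ≠ 0} with hT
  haveI : Finite T := hfin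
  set D : ℕ := 2 * ∑ i, (d i).natAbs with hD
  have hb : ∀ i j, d i - d j ≤ D := by
    intro i j
    have h1 : (d i).natAbs ≤ ∑ i, (d i).natAbs :=
      Finset.single_le_sum (f := fun i => (d i).natAbs) (fun _ _ => Nat.zero_le _) (Finset.mem_univ i)
    have h2 : (d j).natAbs ≤ ∑ i, (d i).natAbs :=
      Finset.single_le_sum (f := fun i => (d i).natAbs) (fun _ _ => Nat.zero_le _) (Finset.mem_univ j)
    generalize hM : ∑ i, (d i).natAbs = M at h1 h2 hD
    omega
  have hsub : {w : List L | op σ w ≠ 0} ⊆
      (List.map (Subtype.val : T → L)) '' {w : List T | w.length ≤ D} := by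
    intro w hw
    have hlen : w.length ≤ D := by
      have hex : ∃ i j, op σ w i j ≠ 0 := by
        by_contra hcon
        push Not at hcon
        exact hw (by ext i j; exact hcon i j)
      obtain ⟨i, j, hij⟩ := hex
      have h1 := op_deg hσ w i j hij
      have h2 := hb i j
      have h3 : w.length ≤ wt deg w := by
        unfold wt
        have : ∀ w : List L, w.length ≤ (w.map deg).sum := by
          intro w
          induction w with
          | nil => simp
          | cons l w ih =>
            simp only [List.length_cons, List.map_cons, List.sum_cons]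
            have := hpos l
            omega
        exact this w
      omega
    have hmem : ∀ l ∈ w, l ∈ T := by
      intro l hl h0
      apply hw
      have h0' : σ l = 0 := h0
      unfold op
      exact List.prod_eq_zero (by rw [← h0']; exact List.mem_map_of_mem hl)
    refine ⟨w.attach.map fun x => ⟨x.1, hmem x.1 x.2⟩, ?_, ?_⟩
    · simp only [Set.mem_setOf_eq, List.length_map, List.length_attach]
      exact hlen
    · rw [List.map_map]
      have : (Subtype.val ∘ fun x : {x // x ∈ w} => (⟨x.1, hmem x.1 x.2⟩ : T)) = Subtype.val := rfl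
      rw [this, List.attach_map_subtype_val]
  exact ((List.finite_length_le T D).image _).subset hsub

/-- The unipotent part of the period matrix. -/
noncomputable def unip (u : List L → ℂ) (σ : L → Matrix ι ι k) : Matrix ι ι ℂ :=
  fun i j => ∑ᶠ w : List L, u w * algebraMap k ℂ (op σ w i j)

/-- The period matrix. -/
noncomputable def perMatrix (τ : ℂ) (d : ι → ℤ) (u : List L → ℂ) (σ : L → Matrix ι ι k) :
    Matrix ι ι ℂ := fun i j => unip u σ i j * τ ^ d j

/-- The complex span of a `k`-subspace. -/
def spanC (W : Submodule k (ι → k)) : Submodule ℂ (ι → ℂ) := Submodule.span ℂ (ext '' (W : Set (ι → k)))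

/-- A functional applied to the entries. -/
def lamv (lam : ℂ →ₗ[k] k) (y : ι → ℂ) : ι → k := fun i => lam (y i)

theorem lamv_mem {W : Submodule k (ι → k)} {y : ι → ℂ} (hy : y ∈ spanC W) :
    ∀ lam : ℂ →ₗ[k] k, lamv lam y ∈ W := by
  unfold spanC at hy
  induction hy using Submodule.span_induction with
  | mem x hx =>
    obtain ⟨v, hv, rfl⟩ := hx
    intro lam
    have : lamv lam (ext v) = lam 1 • v := by
      ext i
      simp only [lamv, ext, Pi.smul_apply, smul_eq_mul]
      rw [Algebra.algebraMap_eq_smul_one, map_smul, smul_eq_mul, mul_comm]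
    rw [this]
    exact W.smul_mem _ hv
  | zero =>
    intro lam
    have : lamv lam (0 : ι → ℂ) = 0 := by ext i; simp [lamv]
    rw [this]; exact W.zero_mem
  | add x y _ _ hx hy =>
    intro lam
    have : lamv lam (x + y) = lamv lam x + lamv lam y := by ext i; simp [lamv]
    rw [this]; exact W.add_mem (hx lam) (hy lam)
  | smul c x _ ih =>
    intro lam
    have : lamv lam (c • x) = lamv (lam.comp (LinearMap.mul k ℂ c)) x := by
      ext i
      simp only [lamv, Pi.smul_apply, smul_eq_mul, LinearMap.comp_apply, LinearMap.mul_apply']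
    rw [this]; exact ih _

/-- Homogeneous components of a vector. -/
theorem sum_pr (d : ι → ℤ) (v : ι → k) : ∑ m ∈ Finset.univ.image d, pr d m v = v := by
  classical
  ext i
  rw [Finset.sum_apply]
  simp only [pr_apply]
  rw [Finset.sum_ite_eq, if_pos (Finset.mem_image_of_mem d (Finset.mem_univ i))]

theorem pr_pr (d : ι → ℤ) (m n : ℤ) (v : ι → k) :
    pr d m (pr d n v) = if m = n then pr d n v else 0 := by
  ext i
  simp only [pr_apply]
  split_ifs with h1 h2 h3 h4 h5
  · simp only [pr_apply]; rw [if_pos h2]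
  · exact absurd (h1.symm.trans h2) h3
  · simp only [pr_apply]; rw [if_neg h2]
  · rfl
  · simp only [pr_apply]; rw [if_neg]; intro h; exact h1 (h.trans h5.symm)
  · rfl

section action

variable {d : ι → ℤ} {σ : L → Matrix ι ι k}
variable (hpos : ∀ l, 0 < deg l) (hσ : ∀ l i j, σ l i j ≠ 0 → d i = d j + deg l)

include hσ in
/-- `op σ w` maps degree `n` to degree `n + wt w`. -/
theorem pr_op (w : List L) (m n : ℤ) (v : ι → k) :
    pr d m ((op σ w).mulVec (pr d n v)) =
      if m = n + wt deg w then (op σ w).mulVec (pr d n v) else 0 := by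
  ext i
  rw [pr_apply]
  have key : (op σ w).mulVec (pr d n v) i ≠ 0 → d i = n + wt deg w := by
    intro h
    rw [Matrix.mulVec, dotProduct] at h
    obtain ⟨j, _, hj⟩ := Finset.exists_ne_zero_of_sum_ne_zero h
    have h1 := op_deg hσ w i j (left_ne_zero_of_mul hj)
    have h2 := right_ne_zero_of_mul hj
    rw [pr_apply] at h2
    have h3 : d j = n := by
      by_contra hne
      rw [if_neg hne] at h2
      exact h2 rfl
    rw [h1, h3]
  by_cases h0 : (op σ w).mulVec (pr d n v) i = 0
  · split_ifs <;> simp [h0]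
  · have h1 := key h0
    by_cases h2 : d i = m
    · rw [if_pos h2, if_pos (h2.symm.trans h1)]
    · rw [if_neg h2, if_neg (fun h => h2 (h1.trans h.symm))]
      rfl

include hσ in
/-- Entries of the unipotent part. -/
theorem unip_eq_zero (u : List L → ℂ) {i j : ι} (h : d i < d j) : unip u σ i j = 0 := by
  unfold unip
  have : ∀ w : List L, u w * algebraMap k ℂ (op σ w i j) = 0 := by
    intro w
    by_cases h0 : op σ w i j = 0
    · rw [h0, map_zero, mul_zero]
    · have := op_deg hσ w i j h0
      omega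
  simp [this]

include hpos hσ in
theorem unip_eq_diag {u : List L → ℂ} (hu : u [] = 1) {i j : ι} (h : d i = d j) :
    unip u σ i j = if i = j then 1 else 0 := by
  unfold unip
  rw [finsum_eq_single _ []]
  · rw [op_nil, hu, one_mul, Matrix.one_apply]
    split_ifs <;> simp
  · intro w hw
    by_cases h0 : op σ w i j = 0
    · rw [h0, map_zero, mul_zero]
    · have h1 := op_deg hσ w i j h0
      obtain ⟨l, w', rfl⟩ := List.exists_cons_of_ne_nil hw
      have h2 := hpos l
      simp only [wt, List.map_cons, List.sum_cons] at h1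
      omega

/-- A functional applied to `A v` for a homogeneous vector. -/
theorem lamv_hom {τ : ℂ} {u : List L → ℂ} {S : Finset (List L)} (hS : ∀ w, op σ w ≠ 0 → w ∈ S)
    (lam : ℂ →ₗ[k] k) (n : ℤ) (v : ι → k) :
    lamv lam ((perMatrix τ d u σ).mulVec (ext (pr d n v))) =
      ∑ w ∈ S, lam (u w * τ ^ n) • (op σ w).mulVec (pr d n v) := by
  ext i
  rw [Finset.sum_apply]
  simp only [lamv, Matrix.mulVec, dotProduct, Pi.smul_apply, smul_eq_mul]
  rw [map_sum]
  have h1 : ∀ w ∈ S, lam (u w * τ ^ n) * ∑ j, op σ w i j * pr d n v j =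
      ∑ j, lam (u w * τ ^ n) * (op σ w i j * pr d n v j) := fun w _ => Finset.mul_sum _ _ _
  rw [Finset.sum_congr rfl h1, Finset.sum_comm]
  apply Finset.sum_congr rfl
  intro j _
  by_cases hj : d j = n
  · have h2 : unip u σ i j = ∑ w ∈ S, u w * algebraMap k ℂ (op σ w i j) := by
      unfold unip
      apply finsum_eq_sum_of_support_subset
      intro w hw
      apply Finset.mem_coe.2
      apply hS
      intro h0
      apply hw
      show u w * algebraMap k ℂ (op σ w i j) = 0
      rw [h0]; simp
    have h3 : perMatrix τ d u σ i j * ext (pr d n v) j =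
        ∑ w ∈ S, (op σ w i j * pr d n v j) • (u w * τ ^ n) := by
      unfold perMatrix ext
      rw [h2, hj, Finset.sum_mul, Finset.sum_mul]
      apply Finset.sum_congr rfl
      intro w _
      rw [Algebra.smul_def, map_mul]
      ring
    rw [h3, map_sum]
    apply Finset.sum_congr rfl
    intro w _
    rw [map_smul, smul_eq_mul, mul_comm]
  · have h2 : pr d n v j = 0 := by rw [pr_apply, if_neg hj]
    have h3 : ext (pr d n v) j = 0 := by unfold ext; rw [h2, map_zero]
    rw [h3, mul_zero, map_zero, h2]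
    simp

end action

section main

variable {d : ι → ℤ} {σ : L → Matrix ι ι k} {τ : ℂ} {u : List L → ℂ}
variable (hpos : ∀ l, 0 < deg l) (hσ : ∀ l i j, σ l i j ≠ 0 → d i = d j + deg l)

/-- Components only in degrees `≥ n`. -/
def InF (d : ι → ℤ) (n : ℤ) (v : ι → k) : Prop := ∀ i, d i < n → v i = 0

include hσ in
theorem per_low {y : ι → ℂ} {m : ℤ} (hy : ∀ i, d i < m → y i = 0) {i : ι} (hi : d i < m) :
    (perMatrix τ d u σ).mulVec y i = 0 := by
  rw [Matrix.mulVec, dotProduct]
  apply Finset.sum_eq_zero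
  intro j _
  by_cases hj : d j < m
  · rw [hy j hj, mul_zero]
  · unfold perMatrix
    rw [unip_eq_zero hσ u (by omega : d i < d j)]
    simp

include hpos hσ in
theorem per_diag (hu : u [] = 1) {y : ι → ℂ} {m : ℤ} (hy : ∀ i, d i < m → y i = 0) {i : ι}
    (hi : d i = m) : (perMatrix τ d u σ).mulVec y i = τ ^ m * y i := by
  rw [Matrix.mulVec, dotProduct]
  rw [Finset.sum_eq_single i]
  · unfold perMatrix
    rw [unip_eq_diag hpos hσ hu rfl, if_pos rfl, one_mul, hi]
  · intro j _ hji
    rcases lt_trichotomy (d j) m with hj | hj | hj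
    · rw [hy j hj, mul_zero]
    · unfold perMatrix
      rw [unip_eq_diag hpos hσ hu (hi.trans hj.symm), if_neg (Ne.symm hji)]
      simp
    · unfold perMatrix
      rw [unip_eq_zero hσ u (by omega : d i < d j)]
      simp
  · intro h
    exact absurd (Finset.mem_univ i) h

include hpos hσ in
theorem per_low_rev (hτ : τ ≠ 0) (hu : u [] = 1) {y : ι → ℂ} {m : ℤ}
    (hy : ∀ i, d i < m → (perMatrix τ d u σ).mulVec y i = 0) {i : ι} (hi : d i < m) :
    y i = 0 := by
  classical
  by_contra hne
  have hne' : (Finset.univ.filter fun i => d i < m ∧ y i ≠ 0).Nonempty := ⟨i, by simp [hi, hne]⟩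
  obtain ⟨i0, hi0, hmin⟩ := Finset.exists_min_image _ d hne'
  rw [Finset.mem_filter] at hi0
  have h1 : ∀ j, d j < d i0 → y j = 0 := by
    intro j hj
    by_contra hj0
    have := hmin j (by simp [hj0, hj.trans hi0.2.1])
    omega
  have h2 := per_diag hpos hσ (τ := τ) hu h1 (rfl : d i0 = d i0)
  rw [hy i0 hi0.2.1] at h2
  rcases mul_eq_zero.1 h2.symm with h3 | h3
  · exact absurd h3 (zpow_ne_zero _ hτ)
  · exact hi0.2.2 h3

/-- The functional `lam` applied to `A v`, as a linear map of `v`. -/
noncomputable def lamA (τ : ℂ) (d : ι → ℤ) (u : List L → ℂ) (σ : L → Matrix ι ι k)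
    (lam : ℂ →ₗ[k] k) : (ι → k) →ₗ[k] (ι → k) where
  toFun v := lamv lam ((perMatrix τ d u σ).mulVec (ext v))
  map_add' v w := by
    have : ext (v + w) = ext v + ext w := by ext i; simp [ext]
    rw [this, Matrix.mulVec_add]
    ext i; simp [lamv]
  map_smul' c v := by
    have : ext (c • v) = (algebraMap k ℂ c) • ext v := by ext i; simp [ext]
    rw [this, Matrix.mulVec_smul]
    ext i
    simp only [lamv, Pi.smul_apply, smul_eq_mul, RingHom.id_apply]
    rw [← Algebra.smul_def, map_smul, smul_eq_mul]

theorem lamA_apply (lam : ℂ →ₗ[k] k) (v : ι → k) :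
    lamA τ d u σ lam v = lamv lam ((perMatrix τ d u σ).mulVec (ext v)) := rfl

theorem ext_low {n : ℤ} {v : ι → k} (hv : InF d n v) {i : ι} (hi : d i < n) : ext v i = 0 := by
  unfold ext; rw [hv i hi, map_zero]

include hσ in
theorem lamA_low (lam : ℂ →ₗ[k] k) {n : ℤ} {v : ι → k} (hv : InF d n v) :
    InF d n (lamA τ d u σ lam v) := by
  intro i hi
  rw [lamA_apply]
  unfold lamv
  rw [per_low hσ (fun j hj => ext_low hv hj) hi, map_zero]

include hpos hσ in
theorem lamA_diag (hu : u [] = 1) (lam : ℂ →ₗ[k] k) {n : ℤ} {v : ι → k} (hv : InF d n v) :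
    pr d n (lamA τ d u σ lam v) = lam (τ ^ n) • pr d n v := by
  ext i
  rw [Pi.smul_apply, smul_eq_mul, pr_apply, pr_apply]
  split_ifs with hi
  · rw [lamA_apply]
    unfold lamv
    rw [per_diag hpos hσ hu (fun j hj => ext_low hv hj) hi]
    unfold ext
    rw [mul_comm, ← Algebra.smul_def, map_smul, smul_eq_mul, mul_comm]
  · rw [mul_zero]

/-- `1`, `τ ^ t` and the periods of the active letters of degree `t`. -/
def fam (deg : L → ℕ) (σ : L → Matrix ι ι k) (u : List L → ℂ) (τ : ℂ) (t : ℕ) :
    Option (Option {l : L // σ l ≠ 0 ∧ deg l = t}) → ℂ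
  | none => 1
  | some none => τ ^ t
  | some (some l) => u [l.1]

/-- What is proved in degrees `≥ n`. -/
def Good (d : ι → ℤ) (σ : L → Matrix ι ι k) (W W' : Submodule k (ι → k)) (n : ℤ) : Prop :=
  (∀ v, InF d n v → (v ∈ W ↔ v ∈ W')) ∧ (∀ v ∈ W, InF d n v → ∀ m, pr d m v ∈ W) ∧
    (∀ v ∈ W, InF d n v → ∀ l, (σ l).mulVec v ∈ W)

theorem InF_pr {n : ℤ} {v : ι → k} (hv : InF d n v) (m : ℤ) : InF d n (pr d m v) := by
  intro i hi
  rw [pr_apply, hv i hi]
  simp

include hσ in
theorem InF_op {n : ℤ} {v : ι → k} (hv : InF d n v) (w : List L) :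
    InF d (n + wt deg w) ((op σ w).mulVec v) := by
  intro i hi
  rw [Matrix.mulVec, dotProduct]
  apply Finset.sum_eq_zero
  intro j _
  by_cases h0 : op σ w i j = 0
  · rw [h0, zero_mul]
  · have := op_deg hσ w i j h0
    rw [hv j (by omega), mul_zero]

theorem InF_succ {n : ℤ} {v : ι → k} (hv : InF d n v) (h0 : pr d n v = 0) : InF d (n + 1) v := by
  intro i hi
  rcases lt_or_eq_of_le (show d i ≤ n by omega) with h | h
  · exact hv i h
  · have := congrFun h0 i
    rw [pr_apply, if_pos h] at this
    exact this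

include hpos hσ in
/-- The induction step. -/
theorem key (hfin : {l | σ l ≠ 0}.Finite) (hτ : τ ≠ 0) (hu : u [] = 1)
    (hind : ∀ t : ℕ, 1 ≤ t → LinearIndependent k (fam deg σ u τ t))
    {W W' : Submodule k (ι → k)}
    (h1 : ∀ v ∈ W, (perMatrix τ d u σ).mulVec (ext v) ∈ spanC W')
    {n : ℤ} {N : Submodule k (ι → k)} (hN : ∀ v, v ∈ N ↔ v ∈ W ∧ InF d (n + 1) v)
    (N1 : ∀ v ∈ W', InF d (n + 1) v → v ∈ N) (N2 : ∀ v ∈ N, ∀ m, pr d m v ∈ N)
    (N3 : ∀ v ∈ N, ∀ l, (σ l).mulVec v ∈ N) {w : ι → k} (hw : w ∈ W) (hF : InF d n w) :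
    ∃ w' ∈ W', InF d n w' ∧ pr d n w' = pr d n w ∧ ∀ t : ℕ, 1 ≤ t →
      pr d (n + t) w ∈ N ∧ pr d (n + t) w' ∈ N ∧
        ∀ l, deg l = t → (σ l).mulVec (pr d n w) ∈ N := by
  classical
  have N4 : ∀ (x : List L) (v : ι → k), v ∈ N → (op σ x).mulVec v ∈ N := by
    intro x
    induction x with
    | nil => intro v hv; rw [op_nil, Matrix.one_mulVec]; exact hv
    | cons l x ih =>
      intro v hv
      rw [op_cons, ← Matrix.mulVec_mulVec]
      exact N3 _ (ih v hv) l
  have hlam : ∀ (lam : ℂ →ₗ[k] k), ∀ v ∈ W, lamA τ d u σ lam v ∈ W' := fun lam v hv =>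
    lamv_mem (h1 v hv) lam
  have N5 : ∀ (lam : ℂ →ₗ[k] k), ∀ v ∈ N, lamA τ d u σ lam v ∈ N := fun lam v hv =>
    N1 _ (hlam lam v ((hN v).1 hv).1) (lamA_low hσ lam ((hN v).1 hv).2)
  have hsc : ∀ t : ℕ, 1 ≤ t → LinearIndependent k (fun x => fam deg σ u τ t x * τ ^ n) := by
    intro t ht
    have := (hind t ht).map' (LinearMap.mulRight k (τ ^ n)) (by
      rw [LinearMap.ker_eq_bot]
      intro x y hxy
      exact mul_right_cancel₀ (zpow_ne_zero n hτ) hxy)
    exact this
  set S : Finset (List L) := (words_finite hpos hσ hfin).toFinset with hSdef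
  have hS : ∀ x, op σ x ≠ 0 → x ∈ S := fun x hx => by
    rw [hSdef, Set.Finite.mem_toFinset]; exact hx
  obtain ⟨lam0, hl0, -⟩ := exists_functional (hsc 1 le_rfl) none
  simp only [fam, one_mul] at hl0
  set w' : ι → k := lamA τ d u σ lam0 w with hw'
  have hw'W : w' ∈ W' := hlam lam0 w hw
  have hw'F : InF d n w' := lamA_low hσ lam0 hF
  have hw'n : pr d n w' = pr d n w := by
    rw [hw', lamA_diag hpos hσ hu lam0 hF, hl0, one_smul]
  have star : ∀ lam : ℂ →ₗ[k] k, lamA τ d u σ lam w - lam (τ ^ n) • w' ∈ N := by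
    intro lam
    apply N1
    · exact W'.sub_mem (hlam lam w hw) (W'.smul_mem _ hw'W)
    · apply InF_succ
      · intro i hi
        rw [Pi.sub_apply, Pi.smul_apply, lamA_low hσ lam hF i hi, hw'F i hi, smul_zero, sub_zero]
      · rw [map_sub, map_smul, lamA_diag hpos hσ hu lam hF, hw'n, sub_self]
  refine ⟨w', hw'W, hw'F, hw'n, ?_⟩
  intro t
  induction t using Nat.strong_induction_on with
  | _ t IH =>
  intro ht
  set a : ι → k := pr d n w with ha
  set b : ι → k := ∑ s ∈ Finset.Ico 1 t, pr d (n + (s : ℕ)) w with hb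
  have hbN : b ∈ N := by
    apply Submodule.sum_mem
    intro s hs
    rw [Finset.mem_Ico] at hs
    exact (IH s hs.2 hs.1).1
  set c : ι → k := w - a - b with hc
  have hcv : ∀ i, c i = w i - (if d i = n then w i else 0) -
      ∑ s ∈ Finset.Ico 1 t, (if d i = n + (s : ℕ) then w i else 0) := by
    intro i
    rw [hc, Pi.sub_apply, Pi.sub_apply, hb, Finset.sum_apply, ha]
    rfl
  have hsum : ∀ i, (∑ s ∈ Finset.Ico 1 t, (if d i = n + (s : ℕ) then w i else 0)) =
      if n < d i ∧ d i < n + t then w i else 0 := by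
    intro i
    split_ifs with hi
    · rw [Finset.sum_eq_single (d i - n).toNat]
      · rw [if_pos (by omega)]
      · intro s _ hs
        rw [if_neg (by omega)]
      · intro h
        exfalso
        apply h
        rw [Finset.mem_Ico]
        omega
    · apply Finset.sum_eq_zero
      intro s hs
      rw [Finset.mem_Ico] at hs
      rw [if_neg (by omega)]
  have hcF : InF d (n + t) c := by
    intro i hi
    rw [hcv, hsum]
    rcases lt_trichotomy (d i) n with h | h | h
    · rw [hF i h]; simp
    · rw [if_pos h, if_neg (by omega)]; ring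
    · rw [if_neg (by omega), if_pos ⟨h, hi⟩]; ring
  have hcn : pr d (n + t) c = pr d (n + t) w := by
    ext i
    rw [pr_apply, pr_apply]
    split_ifs with hi
    · rw [hcv, hsum, if_neg (by omega), if_neg (by omega)]; ring
    · rfl
  have hsplit : w = a + b + c := by rw [hc]; ring
  -- the relation in degree `n + t`
  have Z : ∀ lam : ℂ →ₗ[k] k, (∑ x ∈ S, lam (u x * τ ^ n) •
      (if n + (t : ℤ) = n + wt deg x then (op σ x).mulVec a else 0)) +
      lam (τ ^ (n + (t : ℤ))) • pr d (n + t) w - lam (τ ^ n) • pr d (n + t) w' ∈ N := by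
    intro lam
    have h3 := N2 _ (star lam) (n + t)
    rw [map_sub, map_smul] at h3
    have h4 : pr d (n + t) (lamA τ d u σ lam w) = (∑ x ∈ S, lam (u x * τ ^ n) •
        (if n + (t : ℤ) = n + wt deg x then (op σ x).mulVec a else 0)) +
        pr d (n + t) (lamA τ d u σ lam b) + lam (τ ^ (n + (t : ℤ))) • pr d (n + t) w := by
      have e1 : pr d (n + t) (lamA τ d u σ lam c) = lam (τ ^ (n + (t : ℤ))) • pr d (n + t) w := by
        rw [lamA_diag hpos hσ hu lam hcF, hcn]
      have e2 : pr d (n + t) (lamA τ d u σ lam a) = ∑ x ∈ S, lam (u x * τ ^ n) •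
          (if n + (t : ℤ) = n + wt deg x then (op σ x).mulVec a else 0) := by
        rw [ha, lamA_apply, lamv_hom hS, map_sum]
        apply Finset.sum_congr rfl
        intro x _
        rw [map_smul, pr_op hσ]
      calc pr d (n + t) (lamA τ d u σ lam w) = pr d (n + t) (lamA τ d u σ lam (a + b + c)) := by
            rw [← hsplit]
        _ = _ := by rw [map_add, map_add, map_add, map_add, e1, e2]
    rw [h4] at h3
    have h5 := N.sub_mem h3 (N2 _ (N5 lam b hbN) (n + t))
    convert h5 using 1
    abel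
  have hx : ∀ x : List L, wt deg x = t → (∃ l, x = [l] ∧ deg l = t) ∨
      (op σ x).mulVec a ∈ N := by
    intro x hxt
    rcases List.eq_nil_or_concat x with rfl | ⟨x', l, rfl⟩
    · simp [wt] at hxt; omega
    · rw [List.concat_eq_append] at hxt ⊢
      rcases List.eq_nil_or_concat x' with rfl | ⟨x'', l', rfl⟩
      · left
        refine ⟨l, rfl, ?_⟩
        simpa [wt] using hxt
      · right
        have hl' := hpos l'
        have hl := hpos l
        have hlt : deg l < t := by
          rw [List.concat_eq_append] at hxt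
          simp only [wt, List.map_append, List.sum_append, List.map_cons, List.map_nil,
            List.sum_cons, List.sum_nil] at hxt
          omega
        have h6 := (IH (deg l) hlt hl).2.2 l rfl
        rw [op_append, ← Matrix.mulVec_mulVec]
        apply N4
        rw [op_cons, op_nil, mul_one]
        exact h6
  have hop1 : ∀ l : L, op σ [l] = σ l := fun l => by rw [op_cons, op_nil, mul_one]
  have hwt : ∀ x : List L, n + (t : ℤ) = n + wt deg x → wt deg x = t := fun x h => by omega
  -- the sum without the letters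
  have hsumN : ∀ (lam : ℂ →ₗ[k] k) (S' : Finset (List L)),
      (∀ l, [l] ∈ S' → σ l ≠ 0 → deg l = t → lam (u [l] * τ ^ n) = 0) →
      (∑ x ∈ S', lam (u x * τ ^ n) •
      (if n + (t : ℤ) = n + wt deg x then (op σ x).mulVec a else 0)) ∈ N := by
    intro lam S' hz
    apply Submodule.sum_mem
    intro x hxS
    split_ifs with hxw
    · rcases hx x (hwt x hxw) with ⟨l, rfl, hl⟩ | hxN
      · by_cases h0 : σ l = 0
        · rw [hop1, h0, Matrix.zero_mulVec, smul_zero]; exact N.zero_mem
        · rw [hz l hxS h0 hl, zero_smul]; exact N.zero_mem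
      · exact N.smul_mem _ hxN
    · rw [smul_zero]; exact N.zero_mem
  have hτnt : τ ^ t * τ ^ n = τ ^ (n + (t : ℤ)) := by
    rw [zpow_add₀ hτ, zpow_natCast, mul_comm]
  refine ⟨?_, ?_, ?_⟩
  · obtain ⟨lam, hl1, hl2⟩ := exists_functional (hsc t ht) (some none)
    have e0 := hl2 none (by simp)
    simp only [fam, one_mul] at e0
    simp only [fam] at hl1
    rw [hτnt] at hl1
    have h6 := Z lam
    rw [e0, hl1, one_smul, zero_smul, sub_zero] at h6
    have h7 := hsumN lam S (fun l _ h0 hl => by
      have := hl2 (some (some ⟨l, h0, hl⟩)) (by simp)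
      simpa [fam] using this)
    exact (N.add_mem_iff_right h7).1 h6
  · obtain ⟨lam, hl1, hl2⟩ := exists_functional (hsc t ht) none
    have e0 := hl2 (some none) (by simp)
    simp only [fam] at e0
    rw [hτnt] at e0
    simp only [fam, one_mul] at hl1
    have h6 := Z lam
    rw [e0, hl1, one_smul, zero_smul, add_zero] at h6
    have h7 := hsumN lam S (fun l _ h0 hl => by
      have := hl2 (some (some ⟨l, h0, hl⟩)) (by simp)
      simpa [fam] using this)
    exact (N.sub_mem_iff_right h7).1 h6
  · intro l0 hl0t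
    by_cases h0 : σ l0 = 0
    · rw [h0, Matrix.zero_mulVec]; exact N.zero_mem
    obtain ⟨lam, hl1, hl2⟩ := exists_functional (hsc t ht) (some (some ⟨l0, h0, hl0t⟩))
    have e0 := hl2 (some none) (by simp)
    have e1 := hl2 none (by simp)
    simp only [fam] at e0 hl1
    simp only [fam, one_mul] at e1
    rw [hτnt] at e0
    have h6 := Z lam
    rw [e0, e1, zero_smul, zero_smul, add_zero, sub_zero] at h6
    have hmem : [l0] ∈ S := hS _ (by rw [hop1]; exact h0)
    rw [← Finset.add_sum_erase S _ hmem] at h6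
    have h7 := hsumN lam (S.erase [l0]) (fun l hlS h0' hl => by
      have hne : l ≠ l0 := by
        rintro rfl
        exact Finset.notMem_erase _ _ hlS
      have := hl2 (some (some ⟨l, h0', hl⟩)) (by
        intro h
        rw [Option.some.injEq, Option.some.injEq, Subtype.mk.injEq] at h
        exact hne h)
      simpa [fam] using this)
    have h8 := (N.add_mem_iff_left h7).1 h6
    rw [if_pos (by simp [wt, hl0t]), hl1, one_smul, hop1] at h8
    exact h8

include hpos hσ in
theorem step (hfin : {l | σ l ≠ 0}.Finite) (hτ : τ ≠ 0) (hu : u [] = 1)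
    (hind : ∀ t : ℕ, 1 ≤ t → LinearIndependent k (fam deg σ u τ t))
    {W W' : Submodule k (ι → k)}
    (h1 : ∀ v ∈ W, (perMatrix τ d u σ).mulVec (ext v) ∈ spanC W')
    (h2 : ∀ v ∈ W', ∃ y ∈ spanC W, (perMatrix τ d u σ).mulVec y = ext v)
    (n : ℤ) (ih : Good d σ W W' (n + 1)) : Good d σ W W' n := by
  classical
  obtain ⟨ih1, ih2, ih3⟩ := ih
  let N : Submodule k (ι → k) :=
    { carrier := {v | v ∈ W ∧ InF d (n + 1) v}
      add_mem' := fun {a b} ha hb => ⟨W.add_mem ha.1 hb.1, fun i hi => by
        rw [Pi.add_apply, ha.2 i hi, hb.2 i hi, add_zero]⟩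
      zero_mem' := ⟨W.zero_mem, fun _ _ => rfl⟩
      smul_mem' := fun c {a} ha => ⟨W.smul_mem c ha.1, fun i hi => by
        rw [Pi.smul_apply, ha.2 i hi, smul_zero]⟩ }
  have hN : ∀ v, v ∈ N ↔ v ∈ W ∧ InF d (n + 1) v := fun v => Iff.rfl
  have N1 : ∀ v ∈ W', InF d (n + 1) v → v ∈ N := fun v hv hF => ⟨(ih1 v hF).2 hv, hF⟩
  have N2 : ∀ v ∈ N, ∀ m, pr d m v ∈ N := fun v hv m => ⟨ih2 v hv.1 hv.2 m, InF_pr hv.2 m⟩
  have N3 : ∀ v ∈ N, ∀ l, (σ l).mulVec v ∈ N := fun v hv l => ⟨ih3 v hv.1 hv.2 l, by
    have h := InF_op hσ hv.2 [l]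
    intro i hi
    have h' := h i (by omega)
    rwa [op_cons, op_nil, mul_one] at h'⟩
  -- a vector is the sum of its component of degree `n` and of elements of `N`
  have hrest : ∀ w : ι → k, InF d n w → (∀ t : ℕ, 1 ≤ t → pr d (n + t) w ∈ N) →
      w - pr d n w ∈ N := by
    intro w hF hw
    have h3 : w - pr d n w = ∑ m ∈ (Finset.univ.image d).erase n, pr d m w := by
      by_cases hn : n ∈ Finset.univ.image d
      · rw [sub_eq_iff_eq_add']
        exact ((Finset.add_sum_erase (Finset.univ.image d) (fun m => pr d m w) hn).trans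
          (sum_pr d w)).symm
      · rw [Finset.erase_eq_of_notMem hn, sum_pr]
        have : pr d n w = 0 := by
          ext i
          rw [pr_apply, if_neg]
          · rfl
          · intro h
            exact hn (h ▸ Finset.mem_image_of_mem d (Finset.mem_univ i))
        rw [this, sub_zero]
    rw [h3]
    apply Submodule.sum_mem
    intro m hm
    rcases lt_trichotomy m n with h | h | h
    · have : pr d m w = 0 := by
        ext i
        rw [pr_apply]
        split_ifs with hi
        · exact hF i (hi ▸ h)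
        · rfl
      rw [this]; exact N.zero_mem
    · exact absurd h (Finset.ne_of_mem_erase hm)
    · have := hw (m - n).toNat (by omega)
      rwa [show n + ((m - n).toNat : ℤ) = m by omega] at this
  have main : ∀ w ∈ W, InF d n w → pr d n w ∈ W ∧ pr d n w ∈ W' ∧ w - pr d n w ∈ N ∧
      ∀ l, (σ l).mulVec (pr d n w) ∈ N := by
    intro w hw hF
    obtain ⟨w', hw', hF', hpr, hall⟩ := key hpos hσ hfin hτ hu hind h1 hN N1 N2 N3 hw hF
    have h3 := hrest w hF (fun t ht => (hall t ht).1)
    have h4 := hrest w' hF' (fun t ht => (hall t ht).2.1)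
    refine ⟨?_, ?_, h3, fun l => (hall (deg l) (hpos l)).2.2 l rfl⟩
    · have := W.sub_mem hw h3.1
      rwa [sub_sub_cancel] at this
    · have := W'.sub_mem hw' ((ih1 _ h4.2).1 h4.1)
      rw [sub_sub_cancel, hpr] at this
      exact this
  refine ⟨?_, ?_, ?_⟩
  · intro v hF
    constructor
    · intro hv
      obtain ⟨-, h4, h5, -⟩ := main v hv hF
      have := W'.add_mem h4 ((ih1 _ h5.2).1 h5.1)
      rwa [add_sub_cancel] at this
    · intro hv
      obtain ⟨y, hy, hAy⟩ := h2 v hv
      have hlow : ∀ i, d i < n → y i = 0 := fun i hi =>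
        per_low_rev hpos hσ hτ hu (m := n) (fun j hj => by
          rw [hAy]; unfold ext; rw [hF j hj, map_zero]) hi
      have hlin : LinearIndependent k (fun _ : Unit => (τ ^ n)⁻¹) :=
        LinearIndependent.of_subsingleton () (inv_ne_zero (zpow_ne_zero n hτ))
      obtain ⟨lam, hl1, -⟩ := exists_functional hlin ()
      have hwW : lamv lam y ∈ W := lamv_mem hy lam
      have hwF : InF d n (lamv lam y) := fun i hi => by
        unfold lamv; rw [hlow i hi, map_zero]
      have hpr : pr d n (lamv lam y) = pr d n v := by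
        ext i
        rw [pr_apply, pr_apply]
        split_ifs with hi
        · have h6 := per_diag hpos hσ (τ := τ) hu hlow hi
          rw [hAy] at h6
          unfold lamv
          have h7 : y i = (v i) • (τ ^ n)⁻¹ := by
            rw [Algebra.smul_def]
            unfold ext at h6
            rw [h6]
            field_simp
          rw [h7, map_smul, hl1, smul_eq_mul, mul_one]
        · rfl
      obtain ⟨h3, h4, -, -⟩ := main _ hwW hwF
      rw [hpr] at h3 h4
      have h5 : v - pr d n v ∈ N := by
        apply N1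
        · exact W'.sub_mem hv h4
        · apply InF_succ
          · intro i hi
            rw [Pi.sub_apply, hF i hi, pr_apply, hF i hi]; simp
          · rw [map_sub, pr_pr, if_pos rfl, sub_self]
      have := W.add_mem h3 h5.1
      rwa [add_sub_cancel] at this
  · intro v hv hF m
    obtain ⟨h3, -, h5, -⟩ := main v hv hF
    have h6 := N2 _ h5 m
    have h7 : pr d m v = pr d m (pr d n v) + pr d m (v - pr d n v) := by
      rw [← map_add, add_sub_cancel]
    rw [h7, pr_pr]
    apply W.add_mem _ h6.1
    split_ifs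
    · exact h3
    · exact W.zero_mem
  · intro v hv hF l
    obtain ⟨-, -, h5, h6⟩ := main v hv hF
    have h7 : (σ l).mulVec v = (σ l).mulVec (pr d n v) + (σ l).mulVec (v - pr d n v) := by
      rw [← Matrix.mulVec_add, add_sub_cancel]
    rw [h7]
    exact W.add_mem (h6 l).1 (N3 _ h5 l).1

include hpos hσ in
/-- **Main theorem.** -/
theorem saturated (hfin : {l | σ l ≠ 0}.Finite) (hτ : τ ≠ 0) (hu : u [] = 1)
    (hind : ∀ t : ℕ, 1 ≤ t → LinearIndependent k (fam deg σ u τ t))
    {W W' : Submodule k (ι → k)}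
    (h1 : ∀ v ∈ W, (perMatrix τ d u σ).mulVec (ext v) ∈ spanC W')
    (h2 : ∀ v ∈ W', ∃ y ∈ spanC W, (perMatrix τ d u σ).mulVec y = ext v) :
    W = W' ∧ (∀ v ∈ W, ∀ m, pr d m v ∈ W) ∧ (∀ v ∈ W, ∀ l, (σ l).mulVec v ∈ W) := by
  have hall : ∀ s : ℕ, Good d σ W W' ((∑ i, (d i).natAbs : ℕ) + 1 - s) := by
    intro s
    induction s with
    | zero =>
      have hz : ∀ v : ι → k, InF d ((∑ i, (d i).natAbs : ℕ) + 1 - (0 : ℕ)) v → v = 0 := by
        intro v hv
        ext i
        apply hv
        have h3 : (d i).natAbs ≤ ∑ i, (d i).natAbs :=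
          Finset.single_le_sum (f := fun i => (d i).natAbs) (fun _ _ => Nat.zero_le _)
            (Finset.mem_univ i)
        omega
      refine ⟨fun v hv => ?_, fun v _ hF m => ?_, fun v _ hF l => ?_⟩
      · rw [hz v hv]; exact ⟨fun _ => W'.zero_mem, fun _ => W.zero_mem⟩
      · rw [hz v hF, map_zero]; exact W.zero_mem
      · rw [hz v hF, Matrix.mulVec_zero]; exact W.zero_mem
    | succ s ih =>
      apply step hpos hσ hfin hτ hu hind h1 h2
      convert ih using 1
      push_cast
      ring
  have hF : ∀ v : ι → k, InF d ((∑ i, (d i).natAbs : ℕ) + 1 -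
      ((2 * (∑ i, (d i).natAbs) + 1 : ℕ) : ℤ)) v := by
    intro v i hi
    exfalso
    have h3 : (d i).natAbs ≤ ∑ i, (d i).natAbs :=
      Finset.single_le_sum (f := fun i => (d i).natAbs) (fun _ _ => Nat.zero_le _)
        (Finset.mem_univ i)
    omega
  obtain ⟨g1, g2, g3⟩ := hall (2 * (∑ i, (d i).natAbs) + 1)
  exact ⟨Submodule.ext fun v => g1 v (hF v), fun v hv m => g2 v hv (hF v) m,
    fun v hv l => g3 v hv (hF v) l⟩

end main

end Pool.Agent.TH426.MT
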