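import Pool.Agent.TH426.MT.Core

/-!
# Morphisms: fullness, from the theorem on subspaces applied to graphs
-/

set_option autoImplicit false
set_option linter.unusedSectionVars false
set_option linter.style.haveILetI false

namespace Pool.Agent.TH426.MT

open Finset

variable {k : Type*} [Field k] [Algebra k ℂ]
variable {L : Type*} {deg : L → ℕ}

section ind

variable {ι : Type*} [Fintype ι] [DecidableEq ι]

/-- Criterion for the independence of `1`, `τ ^ t` and the periods of degree `t`. -/
theorem ind_of {σ : L → Matrix ι ι k} {u : List L → ℂ} {τ : ℂ} {t : ℕ}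
    (hfin : {l | σ l ≠ 0}.Finite)
    (h : ∀ (s : Finset L), (∀ l ∈ s, σ l ≠ 0 ∧ deg l = t) → ∀ (c : L → k) (a b : k),
      algebraMap k ℂ a + algebraMap k ℂ b * τ ^ t + ∑ l ∈ s, algebraMap k ℂ (c l) * u [l] = 0 →
      a = 0 ∧ b = 0 ∧ ∀ l ∈ s, c l = 0) :
    LinearIndependent k (fam deg σ u τ t) := by
  classical
  have hX : Finite {l : L // σ l ≠ 0 ∧ deg l = t} :=
    (hfin.subset (fun l hl => hl.1 : {l | σ l ≠ 0 ∧ deg l = t} ⊆ {l | σ l ≠ 0}))
  letI := Fintype.ofFinite {l : L // σ l ≠ 0 ∧ deg l = t}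
  rw [Fintype.linearIndependent_iff]
  intro g hg
  rw [Fintype.sum_option, Fintype.sum_option] at hg
  simp only [fam, Algebra.smul_def, mul_one] at hg
  set s : Finset L := Finset.univ.map (Function.Embedding.subtype fun l => σ l ≠ 0 ∧ deg l = t)
    with hs
  have hsm : ∀ l ∈ s, σ l ≠ 0 ∧ deg l = t := by
    intro l hl
    rw [hs, Finset.mem_map] at hl
    obtain ⟨x, _, rfl⟩ := hl
    exact x.2
  set c : L → k := fun l => if hl : σ l ≠ 0 ∧ deg l = t then g (some (some ⟨l, hl⟩)) else 0 with hc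
  have hsum : ∑ l ∈ s, algebraMap k ℂ (c l) * u [l] =
      ∑ x : {l : L // σ l ≠ 0 ∧ deg l = t}, algebraMap k ℂ (g (some (some x))) * u [x.1] := by
    rw [hs, Finset.sum_map]
    apply Finset.sum_congr rfl
    intro x _
    simp only [Function.Embedding.subtype_apply, hc]
    rw [dif_pos x.2]
  obtain ⟨h1, h2, h3⟩ := h s hsm c (g none) (g (some none)) (by
    rw [hsum, add_assoc]; exact hg)
  intro i
  match i with
  | none => exact h1
  | some none => exact h2
  | some (some x) =>
    have h4 := h3 x.1 (by rw [hs, Finset.mem_map]; exact ⟨x, Finset.mem_univ _, rfl⟩)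
    simp only [hc] at h4
    rw [dif_pos x.2] at h4
    exact h4

end ind

section sum

variable {ι κ : Type*} [Fintype ι] [DecidableEq ι] [Fintype κ] [DecidableEq κ]

/-- The direct sum of two objects. -/
def dsum (σ : L → Matrix ι ι k) (σ' : L → Matrix κ κ k) (l : L) : Matrix (ι ⊕ κ) (ι ⊕ κ) k :=
  Matrix.fromBlocks (σ l) 0 0 (σ' l)

theorem op_dsum (σ : L → Matrix ι ι k) (σ' : L → Matrix κ κ k) (w : List L) :
    op (dsum σ σ') w = Matrix.fromBlocks (op σ w) 0 0 (op σ' w) := by
  induction w with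
  | nil => rw [op_nil, op_nil, op_nil, Matrix.fromBlocks_one]
  | cons l w ih =>
    rw [op_cons, ih, op_cons, op_cons, dsum, Matrix.fromBlocks_multiply]
    simp

theorem per_dsum (τ : ℂ) (d : ι → ℤ) (d' : κ → ℤ) (u : List L → ℂ) (σ : L → Matrix ι ι k)
    (σ' : L → Matrix κ κ k) :
    perMatrix τ (Sum.elim d d') u (dsum σ σ') =
      Matrix.fromBlocks (perMatrix τ d u σ) 0 0 (perMatrix τ d' u σ') := by
  ext i j
  unfold perMatrix unip
  rcases i with i | i <;> rcases j with j | j <;> simp only [op_dsum, Matrix.fromBlocks_apply₁₁,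
    Matrix.fromBlocks_apply₁₂, Matrix.fromBlocks_apply₂₁, Matrix.fromBlocks_apply₂₂, Sum.elim_inl,
    Sum.elim_inr, Matrix.zero_apply, map_zero, mul_zero, finsum_zero, zero_mul] <;> rfl

/-- The graph of a matrix. -/
def graph (f : Matrix κ ι k) : Submodule k (ι ⊕ κ → k) where
  carrier := {v | ∀ i, v (Sum.inr i) = f.mulVec (fun j => v (Sum.inl j)) i}
  add_mem' := by
    intro a b ha hb i
    rw [Pi.add_apply, ha i, hb i]
    have : (fun j => (a + b) (Sum.inl j)) = (fun j => a (Sum.inl j)) + fun j => b (Sum.inl j) := rfl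
    rw [this, Matrix.mulVec_add]
    rfl
  zero_mem' := by
    intro i
    have : (fun j => (0 : ι ⊕ κ → k) (Sum.inl j)) = 0 := rfl
    rw [this, Matrix.mulVec_zero]
    rfl
  smul_mem' := by
    intro c a ha i
    rw [Pi.smul_apply, ha i]
    have : (fun j => (c • a) (Sum.inl j)) = c • fun j => a (Sum.inl j) := rfl
    rw [this, Matrix.mulVec_smul]
    rfl

theorem mem_graph {f : Matrix κ ι k} {v : ι ⊕ κ → k} :
    v ∈ graph f ↔ ∀ i, v (Sum.inr i) = f.mulVec (fun j => v (Sum.inl j)) i := Iff.rfl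

/-- The complex matrix. -/
def mapC (f : Matrix κ ι k) : Matrix κ ι ℂ := f.map (algebraMap k ℂ)

theorem mapC_ext (f : Matrix κ ι k) (v : ι → k) : (mapC f).mulVec (ext v) = ext (f.mulVec v) := by
  ext i
  simp only [Matrix.mulVec, dotProduct, mapC, ext, Matrix.map_apply, map_sum, map_mul]

theorem graph_mem_spanC (f : Matrix κ ι k) (y : ι → ℂ) :
    Sum.elim y ((mapC f).mulVec y) ∈ spanC (graph f) := by
  classical
  have h1 : Sum.elim y ((mapC f).mulVec y) =
      ∑ j, y j • ext (Sum.elim (Pi.single j (1 : k)) (f.mulVec (Pi.single j (1 : k)))) := by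
    ext i
    rw [Finset.sum_apply]
    rcases i with i | i
    · simp only [Sum.elim_inl, Pi.smul_apply, ext, smul_eq_mul]
      rw [Finset.sum_eq_single i]
      · rw [Pi.single_eq_same, map_one, mul_one]
      · intro j _ hj
        rw [Pi.single_eq_of_ne (Ne.symm hj), map_zero, mul_zero]
      · intro h; exact absurd (Finset.mem_univ i) h
    · simp only [Sum.elim_inr, Pi.smul_apply, ext, smul_eq_mul, Matrix.mulVec_single_one,
        Matrix.mulVec, dotProduct, mapC, Matrix.map_apply, Matrix.col_apply]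
      apply Finset.sum_congr rfl
      intro j _
      ring
  rw [h1]
  apply Submodule.sum_mem
  intro j _
  apply Submodule.smul_mem
  apply Submodule.subset_span
  exact ⟨_, by intro i; rfl, rfl⟩

theorem per_surj {d : ι → ℤ} {σ : L → Matrix ι ι k} {τ : ℂ} {u : List L → ℂ}
    (hpos : ∀ l, 0 < deg l) (hσ : ∀ l i j, σ l i j ≠ 0 → d i = d j + deg l)
    (hτ : τ ≠ 0) (hu : u [] = 1) (v : ι → ℂ) : ∃ y, (perMatrix τ d u σ).mulVec y = v := by
  have hinj : Function.Injective (Matrix.mulVecLin (perMatrix τ d u σ)) := by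
    rw [← LinearMap.ker_eq_bot, LinearMap.ker_eq_bot']
    intro y hy
    ext i
    exact per_low_rev hpos hσ hτ hu (m := d i + 1) (fun j _ => congrFun hy j) (by omega)
  have hsurj : Function.Surjective (Matrix.mulVecLin (perMatrix τ d u σ)) :=
    LinearMap.injective_iff_surjective.1 hinj
  obtain ⟨y, hy⟩ := hsurj v
  exact ⟨y, hy⟩

/-- **Fullness.** -/
theorem full {d : ι → ℤ} {d' : κ → ℤ} {σ : L → Matrix ι ι k} {σ' : L → Matrix κ κ k} {τ : ℂ}
    {u : List L → ℂ} (hpos : ∀ l, 0 < deg l) (hσ : ∀ l i j, σ l i j ≠ 0 → d i = d j + deg l)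
    (hσ' : ∀ l i j, σ' l i j ≠ 0 → d' i = d' j + deg l) (hfin : {l | σ l ≠ 0}.Finite)
    (hfin' : {l | σ' l ≠ 0}.Finite) (hτ : τ ≠ 0) (hu : u [] = 1)
    (hind : ∀ t : ℕ, 1 ≤ t → LinearIndependent k (fam deg (dsum σ σ') u τ t))
    {f f' : Matrix κ ι k}
    (hf : perMatrix τ d' u σ' * mapC f = mapC f' * perMatrix τ d u σ) :
    f = f' ∧ (∀ i j, f i j ≠ 0 → d' i = d j) ∧ ∀ l, σ' l * f = f * σ l := by
  classical
  have hσs : ∀ l i j, dsum σ σ' l i j ≠ 0 → Sum.elim d d' i = Sum.elim d d' j + deg l := by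
    intro l i j h
    rcases i with i | i <;> rcases j with j | j
    · exact hσ l i j h
    · exact absurd rfl h
    · exact absurd rfl h
    · exact hσ' l i j h
  have hfins : {l | dsum σ σ' l ≠ 0}.Finite := by
    apply (hfin.union hfin').subset
    intro l hl
    by_contra hcon
    rw [Set.mem_union, not_or] at hcon
    have h1 : σ l = 0 := by
      by_contra h; exact hcon.1 h
    have h2 : σ' l = 0 := by
      by_contra h; exact hcon.2 h
    apply hl
    unfold dsum
    rw [h1, h2, Matrix.fromBlocks_zero]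
  have hmul : ∀ (y : ι → ℂ) (z : κ → ℂ),
      (perMatrix τ (Sum.elim d d') u (dsum σ σ')).mulVec (Sum.elim y z) =
      Sum.elim ((perMatrix τ d u σ).mulVec y) ((perMatrix τ d' u σ').mulVec z) := by
    intro y z
    rw [per_dsum, Matrix.fromBlocks_mulVec]
    simp
  have hsat := saturated (σ := dsum σ σ') (d := Sum.elim d d') hpos hσs hfins hτ hu hind
    (W := graph f) (W' := graph f') ?_ ?_
  · obtain ⟨h1, h2, h3⟩ := hsat
    have hbasis : ∀ j, Sum.elim (Pi.single j (1 : k)) (f.mulVec (Pi.single j (1 : k))) ∈ graph f :=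
      fun j i => rfl
    refine ⟨?_, ?_, ?_⟩
    · ext i j
      have h4 := hbasis j
      rw [h1] at h4
      have h5 := h4 i
      simp only [Sum.elim_inr, Sum.elim_inl, Matrix.mulVec_single_one, Matrix.col_apply] at h5
      exact h5
    · intro i j hij
      by_contra hne
      have h4 := h2 _ (hbasis j) (d j) i
      rw [pr_apply, Sum.elim_inr, if_neg hne] at h4
      apply hij
      have h5 : (fun j' => pr (Sum.elim d d') (d j)
          (Sum.elim (Pi.single j (1 : k)) (f.mulVec (Pi.single j (1 : k)))) (Sum.inl j')) =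
          Pi.single j (1 : k) := by
        ext j'
        rw [pr_apply, Sum.elim_inl, Sum.elim_inl]
        by_cases hj : j' = j
        · subst hj; rw [if_pos rfl]
        · rw [Pi.single_eq_of_ne hj]; simp
      rw [h5] at h4
      simp only [Matrix.mulVec_single_one, Matrix.col_apply] at h4
      exact h4.symm
    · intro l
      ext i j
      have h4 := h3 _ (hbasis j) l i
      have h5 : ∀ (y : ι → k) (z : κ → k), (dsum σ σ' l).mulVec (Sum.elim y z) =
          Sum.elim ((σ l).mulVec y) ((σ' l).mulVec z) := by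
        intro y z
        unfold dsum
        rw [Matrix.fromBlocks_mulVec]
        simp
      rw [h5, Sum.elim_inr] at h4
      simp only [Sum.elim_inl] at h4
      rw [Matrix.mulVec_mulVec] at h4
      have h6 : (fun j' => (σ l).mulVec (Pi.single j (1 : k)) j') = (σ l).mulVec (Pi.single j 1) :=
        rfl
      rw [h6, Matrix.mulVec_mulVec] at h4
      simp only [Matrix.mulVec_single_one, Matrix.col_apply] at h4
      exact h4
  · intro v hv
    have hv' : ext v = Sum.elim (ext fun j => v (Sum.inl j))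
        ((mapC f).mulVec (ext fun j => v (Sum.inl j))) := by
      rw [mapC_ext]
      ext i
      rcases i with i | i
      · rfl
      · show algebraMap k ℂ (v (Sum.inr i)) = _
        rw [hv i]; rfl
    rw [hv', hmul, Matrix.mulVec_mulVec, hf, ← Matrix.mulVec_mulVec]
    exact graph_mem_spanC f' _
  · intro v hv
    obtain ⟨y, hy⟩ := per_surj hpos hσ hτ hu (ext fun j => v (Sum.inl j))
    refine ⟨Sum.elim y ((mapC f).mulVec y), graph_mem_spanC f y, ?_⟩
    rw [hmul, Matrix.mulVec_mulVec, hf, ← Matrix.mulVec_mulVec, hy, mapC_ext]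
    ext i
    rcases i with i | i
    · rfl
    · show algebraMap k ℂ _ = algebraMap k ℂ (v (Sum.inr i))
      rw [hv i]

end sum

end Pool.Agent.TH426.MT
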