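import Pool.Agent.TH426.MT.Tau

/-!
# Categories of mixed Tate motives: graded representations of free Lie algebras

Let `L` be a set of letters with degrees `deg l ≥ 1` (the generators of the graded Lie algebra of the
unipotent radical of the Tannaka group; degree `n` generators correspond to a basis of
`Ext¹(ℚ(0), ℚ(n))`). An object is a finite dimensional graded vector space with operators `σ l`,
finitely many of them nonzero, `σ l` raising the degree by `deg l`. The matrix of the comparison
isomorphism is `∑_w u_w σ_w (2πi)^degree`, where `u_w` is the period of the word `w`.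
-/

set_option autoImplicit false
set_option linter.unusedSectionVars false

namespace Pool.Agent.TH426.MT

open Finset Complex

/-- An object, in a homogeneous basis indexed by `ι`. -/
structure Obj (L : Type) (deg : L → ℕ) (k : Type) [Field k] where
  ι : Type
  [fintype : Fintype ι]
  [deceq : DecidableEq ι]
  /-- the degrees of the basis vectors -/
  d : ι → ℤ
  /-- the matrices of the generators -/
  σ : L → Matrix ι ι k
  raises : ∀ l i j, σ l i j ≠ 0 → d i = d j + deg l
  active : {l | σ l ≠ 0}.Finite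

attribute [instance] Obj.fintype Obj.deceq

variable {L : Type} {deg : L → ℕ} {k : Type} [Field k] [Algebra k ℂ]

/-- The matrix of the comparison isomorphism: `∑_w u_w σ_w · (2πi)^degree`, the sum over all words
`w` in the letters (finitely many terms are not zero). -/
noncomputable def Obj.comp (M : Obj L deg k) (u : List L → ℂ) : Matrix M.ι M.ι ℂ := fun i j =>
  (∑ᶠ w : List L, u w * algebraMap k ℂ ((w.map M.σ).prod i j)) *
    (2 * Real.pi * Complex.I) ^ M.d j

/-- The complexification of a subspace. -/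
def complexify {ι : Type} (W : Submodule k (ι → k)) : Submodule ℂ (ι → ℂ) :=
  Submodule.span ℂ {y | ∃ v ∈ W, y = fun i => algebraMap k ℂ (v i)}

/-- The pair `(W, W')` of `k`-subspaces is a subobject of the de Rham–Betti structure of `M`: the
comparison isomorphism maps `W ⊗ ℂ` onto `W' ⊗ ℂ`. -/
def Obj.IsDRB (M : Obj L deg k) (u : List L → ℂ) (W W' : Submodule k (M.ι → k)) : Prop :=
  (complexify W).map (Matrix.mulVecLin (M.comp u)) = complexify W'

/-- `W` is a subobject of `M`: it is graded and stable by all `σ l`. -/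
def Obj.IsSub (M : Obj L deg k) (W : Submodule k (M.ι → k)) : Prop :=
  (∀ v ∈ W, ∀ m : ℤ, (fun i => if M.d i = m then v i else 0) ∈ W) ∧
    ∀ l, ∀ v ∈ W, (M.σ l).mulVec v ∈ W

/-- Every subobject of the de Rham–Betti structure of `M` comes from a subobject of `M`. -/
def Obj.Saturated (M : Obj L deg k) (u : List L → ℂ) : Prop :=
  ∀ W W' : Submodule k (M.ι → k), M.IsDRB u W W' → W = W' ∧ M.IsSub W

/-- Every morphism `(f, f')` of the de Rham–Betti structures comes from a morphism `M → N`: `f = f'`
is homogeneous of degree `0` and commutes with all `σ l`. -/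
def Full (M N : Obj L deg k) (u : List L → ℂ) : Prop :=
  ∀ f f' : Matrix N.ι M.ι k,
    N.comp u * f.map (algebraMap k ℂ) = f'.map (algebraMap k ℂ) * M.comp u →
    f = f' ∧ (∀ i j, f i j ≠ 0 → N.d i = M.d j) ∧ ∀ l, N.σ l * f = f * M.σ l

/-- `1`, `(2πi)^t` and the periods of the letters of degree `t` satisfying `P` are linearly
independent over `k`. -/
def Indep (k : Type) [Field k] [Algebra k ℂ] (deg : L → ℕ) (u : List L → ℂ) (P : L → Prop)
    (t : ℕ) : Prop :=
  ∀ s : Finset L, (∀ l ∈ s, P l ∧ deg l = t) → ∀ (c : L → k) (a b : k),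
    algebraMap k ℂ a + algebraMap k ℂ b * (2 * Real.pi * Complex.I) ^ t +
      ∑ l ∈ s, algebraMap k ℂ (c l) * u [l] = 0 → a = 0 ∧ b = 0 ∧ ∀ l ∈ s, c l = 0

theorem comp_eq (M : Obj L deg k) (u : List L → ℂ) : M.comp u = perMatrix tau M.d u M.σ := rfl

theorem complexify_eq {ι : Type} (W : Submodule k (ι → k)) : complexify W = spanC W := by
  unfold complexify spanC
  congr 1
  ext y
  constructor
  · rintro ⟨v, hv, rfl⟩; exact ⟨v, hv, rfl⟩
  · rintro ⟨v, hv, rfl⟩; exact ⟨v, hv, rfl⟩

theorem sat_of (hpos : ∀ l, 0 < deg l) {u : List L → ℂ} (h0 : u [] = 1) (M : Obj L deg k)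
    (hM : ∀ t, 1 ≤ t → Indep k deg u (fun l => M.σ l ≠ 0) t) : M.Saturated u := by
  intro W W' h
  unfold Obj.IsDRB at h
  rw [complexify_eq, complexify_eq, comp_eq] at h
  obtain ⟨h3, h4, h5⟩ := saturated (σ := M.σ) (d := M.d) (u := u) (W := W) (W' := W') hpos
    M.raises M.active tau_ne h0
    (fun t ht => ind_of M.active (hM t ht))
    (fun v hv => by
      rw [← h]
      exact ⟨ext v, Submodule.subset_span ⟨v, hv, rfl⟩, rfl⟩)
    (fun v hv => by
      have : ext v ∈ spanC W' := Submodule.subset_span ⟨v, hv, rfl⟩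
      rw [← h] at this
      obtain ⟨y, hy, hyv⟩ := this
      exact ⟨y, hy, hyv⟩)
  exact ⟨h3, h4, fun n v hv => h5 v hv n⟩

theorem full_of (hpos : ∀ l, 0 < deg l) {u : List L → ℂ} (h0 : u [] = 1) (M N : Obj L deg k)
    (hM : ∀ t, 1 ≤ t → Indep k deg u (fun l => M.σ l ≠ 0 ∨ N.σ l ≠ 0) t) : Full M N u := by
  intro f f' h
  rw [comp_eq, comp_eq] at h
  have hs : ∀ l, dsum M.σ N.σ l ≠ 0 → M.σ l ≠ 0 ∨ N.σ l ≠ 0 := by
    intro l hl
    by_contra hcon
    push Not at hcon
    apply hl
    unfold dsum
    rw [hcon.1, hcon.2, Matrix.fromBlocks_zero]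
  refine full hpos M.raises N.raises M.active N.active tau_ne h0 ?_ h
  intro t ht
  apply ind_of
  · exact (M.active.union N.active).subset (fun l hl => hs l hl)
  · intro s hs' c a b h
    exact hM t ht s (fun l hl => ⟨hs l (hs' l hl).1, (hs' l hl).2⟩) c a b h

section ext

variable [DecidableEq L]

/-- Degrees of an extension of the unit by `k(t)`. -/
def extd (t : ℕ) : Fin 2 → ℤ := ![0, t]

/-- Its operators. -/
def exts (s : Finset L) (c : L → k) (l : L) : Matrix (Fin 2) (Fin 2) k :=
  if l ∈ s then !![0, 0; c l, 0] else 0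

theorem exts_raises {s : Finset L} {t : ℕ} (hs : ∀ l ∈ s, deg l = t) (c : L → k) (l : L)
    (i j : Fin 2) (h : exts s c l i j ≠ 0) : extd t i = extd t j + deg l := by
  unfold exts at h
  by_cases hm : l ∈ s
  · rw [if_pos hm] at h
    have := hs l hm
    fin_cases i <;> fin_cases j <;> simp_all [extd]
  · rw [if_neg hm] at h
    exact absurd rfl h

/-- An extension of the unit object. -/
def extObj {s : Finset L} {t : ℕ} (hs : ∀ l ∈ s, deg l = t) (c : L → k) : Obj L deg k where
  ι := Fin 2
  d := extd t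
  σ := exts s c
  raises := exts_raises hs c
  active := s.finite_toSet.subset (fun l hl => by
    by_contra h
    apply hl
    unfold exts
    rw [if_neg (fun h' => h (Finset.mem_coe.2 h'))])

/-- The unit object. -/
def unitObj (L : Type) (deg : L → ℕ) (k : Type) [Field k] : Obj L deg k where
  ι := Fin 1
  d := fun _ => 0
  σ := fun _ => 0
  raises := by
    intro m i j h
    exact absurd rfl h
  active := by
    have : {l : L | (0 : Matrix (Fin 1) (Fin 1) k) ≠ 0} = ∅ := by
      ext l
      simp
    rw [this]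
    exact Set.finite_empty

theorem comp_unit (hpos : ∀ l, 0 < deg l) {u : List L → ℂ} (h0 : u [] = 1) :
    perMatrix tau (fun _ : Fin 1 => (0 : ℤ)) u (fun _ : L => (0 : Matrix (Fin 1) (Fin 1) k)) = 1 := by
  ext i j
  have h : unip u (fun _ : L => (0 : Matrix (Fin 1) (Fin 1) k)) i j = if i = j then 1 else 0 :=
    unip_eq_diag (deg := deg) (d := fun _ : Fin 1 => (0 : ℤ)) hpos
      (fun l i j h => absurd rfl h) h0 rfl
  unfold perMatrix
  rw [h, zpow_zero, mul_one, Matrix.one_apply]

theorem comp_ext (hpos : ∀ l, 0 < deg l) {u : List L → ℂ} (h0 : u [] = 1) {s : Finset L} {t : ℕ}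
    (ht : 1 ≤ t) (hs : ∀ l ∈ s, deg l = t) (c : L → k) :
    perMatrix tau (extd t) u (exts s c) =
      !![1, 0; ∑ l ∈ s, algebraMap k ℂ (c l) * u [l], tau ^ t] := by
  have hr : ∀ l i j, exts s c l i j ≠ 0 → extd t i = extd t j + deg l := exts_raises hs c
  have h00 : unip u (exts s c) 0 0 = 1 := by
    rw [unip_eq_diag hpos hr h0 rfl]; rfl
  have h11 : unip u (exts s c) 1 1 = 1 := by
    rw [unip_eq_diag hpos hr h0 rfl]; rfl
  have h01 : unip u (exts s c) 0 1 = 0 := by
    apply unip_eq_zero hr
    show (0 : ℤ) < t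
    omega
  have h10 : unip u (exts s c) 1 0 = ∑ l ∈ s, algebraMap k ℂ (c l) * u [l] := by
    unfold unip
    have hinj : Set.InjOn (fun l : L => [l]) (s : Set L) := fun a _ b _ h => by simpa using h
    rw [finsum_eq_sum_of_support_subset (s := s.image fun l => [l])]
    · rw [Finset.sum_image hinj]
      apply Finset.sum_congr rfl
      intro l hl
      have : op (exts s c) [l] 1 0 = c l := by
        rw [op_cons, op_nil, mul_one]
        unfold exts
        rw [if_pos hl]
        rfl
      rw [this, mul_comm]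
    · intro w hw
      rw [Function.mem_support] at hw
      have hw' : op (exts s c) w 1 0 ≠ 0 := by
        intro h
        apply hw
        rw [h, map_zero, mul_zero]
      have h2 := op_deg hr w _ _ hw'
      have h3 : wt deg w = t := by
        have h4 : extd t 1 = t := rfl
        have h5 : extd t 0 = 0 := rfl
        rw [h4, h5] at h2
        omega
      have hmem : ∀ l ∈ w, l ∈ s := by
        intro l hl
        by_contra hls
        apply hw'
        have h0' : exts s c l = 0 := by
          unfold exts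
          rw [if_neg hls]
        have : op (exts s c) w = 0 := by
          unfold op
          exact List.prod_eq_zero (by rw [← h0']; exact List.mem_map_of_mem hl)
        rw [this]
        rfl
      rw [Finset.mem_coe, Finset.mem_image]
      match w, hmem, h3 with
      | [], _, h3 => simp [wt] at h3; omega
      | [l], hmem, _ => exact ⟨l, hmem l (by simp), rfl⟩
      | l :: l' :: w, hmem, h3 =>
        exfalso
        have h5 := hs l (hmem l (by simp))
        have h6 := hs l' (hmem l' (by simp))
        simp only [wt, List.map_cons, List.sum_cons] at h3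
        omega
  ext i j
  unfold perMatrix
  fin_cases i <;> fin_cases j
  · show unip u (exts s c) 0 0 * tau ^ (0 : ℤ) = 1
    rw [h00, zpow_zero, mul_one]
  · show unip u (exts s c) 0 1 * _ = 0
    rw [h01, zero_mul]
  · show unip u (exts s c) 1 0 * tau ^ (0 : ℤ) = _
    rw [h10, zpow_zero, mul_one]
    rfl
  · show unip u (exts s c) 1 1 * tau ^ (t : ℤ) = tau ^ t
    rw [h11, one_mul, zpow_natCast]

theorem indep_of_full (hk : ∀ x : k, IsAlgebraic ℚ (algebraMap k ℂ x)) (hpos : ∀ l, 0 < deg l)
    {u : List L → ℂ} (h0 : u [] = 1) {t : ℕ} (ht : 1 ≤ t)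
    (h : ∀ (s : Finset L) (hs : ∀ l ∈ s, deg l = t) (c : L → k),
      Full (unitObj L deg k) (extObj hs c) u) : Indep k deg u (fun _ => True) t := by
  intro s hs c a b hab
  have hs' : ∀ l ∈ s, deg l = t := fun l hl => (hs l hl).2
  have hfull : ∀ f f' : Matrix (Fin 2) (Fin 1) k,
      perMatrix tau (extd t) u (exts s c) * f.map (algebraMap k ℂ) =
        f'.map (algebraMap k ℂ) * perMatrix tau (fun _ : Fin 1 => (0 : ℤ)) u
          (fun _ : L => (0 : Matrix (Fin 1) (Fin 1) k)) →
      f = f' ∧ (∀ i j, f i j ≠ 0 → extd t i = 0) ∧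
        ∀ m, exts s c m * f = f * (0 : Matrix (Fin 1) (Fin 1) k) := h s hs' c
  obtain ⟨-, -, h3⟩ := hfull !![1; b] !![1; -a] (by
    rw [comp_unit hpos h0, comp_ext hpos h0 ht hs', Matrix.mul_one]
    ext i j
    fin_cases i <;> fin_cases j
    · simp [Matrix.mul_apply, Fin.sum_univ_two]
    · simp [Matrix.mul_apply, Fin.sum_univ_two, tau]
      linear_combination hab)
  have hc : ∀ l ∈ s, c l = 0 := by
    intro l hl
    have h4 := congrFun (congrFun (h3 l) 1) 0
    unfold exts at h4
    rw [if_pos hl, Matrix.mul_zero] at h4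
    simpa [Matrix.mul_apply, Fin.sum_univ_two] using h4
  have h5 : ∑ l ∈ s, algebraMap k ℂ (c l) * u [l] = 0 :=
    Finset.sum_eq_zero fun l hl => by rw [hc l hl, map_zero, zero_mul]
  rw [h5, add_zero] at hab
  obtain ⟨h6, h7⟩ := tau_pow_indep hk ht hab
  exact ⟨h6, h7, hc⟩

theorem indep_of_sat (hk : ∀ x : k, IsAlgebraic ℚ (algebraMap k ℂ x)) (hpos : ∀ l, 0 < deg l)
    {u : List L → ℂ} (h0 : u [] = 1) {t : ℕ} (ht : 1 ≤ t)
    (h : ∀ (s : Finset L) (hs : ∀ l ∈ s, deg l = t) (c : L → k),
      (extObj hs c : Obj L deg k).Saturated u) : Indep k deg u (fun _ => True) t := by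
  intro s hs c a b hab
  have hs' : ∀ l ∈ s, deg l = t := fun l hl => (hs l hl).2
  have hsat : ∀ W W' : Submodule k (Fin 2 → k),
      (complexify W).map (Matrix.mulVecLin (perMatrix tau (extd t) u (exts s c))) =
        complexify W' → W = W' ∧ (∀ v ∈ W, ∀ m : ℤ, (fun i => if extd t i = m then v i else 0) ∈ W) ∧
        ∀ m, ∀ v ∈ W, (exts s c m).mulVec v ∈ W := h s hs' c
  have key : ∀ (x : k), complexify (Submodule.span k {(![1, x] : Fin 2 → k)}) =
      Submodule.span ℂ {(![1, algebraMap k ℂ x] : Fin 2 → ℂ)} := by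
    intro x
    apply le_antisymm
    · unfold complexify
      rw [Submodule.span_le]
      rintro y ⟨v, hv, rfl⟩
      obtain ⟨c, rfl⟩ := Submodule.mem_span_singleton.1 hv
      apply Submodule.mem_span_singleton.2
      refine ⟨algebraMap k ℂ c, ?_⟩
      ext i
      fin_cases i <;> simp
    · rw [Submodule.span_singleton_le_iff_mem]
      apply Submodule.subset_span
      refine ⟨![1, x], Submodule.mem_span_singleton_self _, ?_⟩
      ext i
      fin_cases i <;> simp
  obtain ⟨-, -, h3⟩ := hsat (Submodule.span k {(![1, b] : Fin 2 → k)})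
    (Submodule.span k {(![1, -a] : Fin 2 → k)}) (by
      rw [key, key, Submodule.map_span, Set.image_singleton]
      congr 1
      rw [Set.singleton_eq_singleton_iff, comp_ext hpos h0 ht hs']
      ext i
      fin_cases i
      · simp [Matrix.mulVec, dotProduct, Fin.sum_univ_two]
      · simp [Matrix.mulVec, dotProduct, Fin.sum_univ_two, tau]
        linear_combination hab)
  have hc : ∀ l ∈ s, c l = 0 := by
    intro l hl
    have h4 := h3 l _ (Submodule.mem_span_singleton_self _)
    obtain ⟨e, hc⟩ := Submodule.mem_span_singleton.1 h4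
    unfold exts at hc
    rw [if_pos hl] at hc
    have h6 := congrFun hc 0
    have h7 := congrFun hc 1
    simp [Matrix.mulVec, dotProduct, Fin.sum_univ_two] at h6
    rw [h6] at h7
    simpa [Matrix.mulVec, dotProduct, Fin.sum_univ_two] using h7.symm
  have h5 : ∑ l ∈ s, algebraMap k ℂ (c l) * u [l] = 0 :=
    Finset.sum_eq_zero fun l hl => by rw [hc l hl, map_zero, zero_mul]
  rw [h5, add_zero] at hab
  obtain ⟨h6, h7⟩ := tau_pow_indep hk ht hab
  exact ⟨h6, h7, hc⟩

theorem equiv (hk : ∀ x : k, IsAlgebraic ℚ (algebraMap k ℂ x)) (hpos : ∀ l, 0 < deg l)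
    {u : List L → ℂ} (h0 : u [] = 1) :
    List.TFAE [∀ M : Obj L deg k, M.Saturated u, ∀ M N : Obj L deg k, Full M N u,
      ∀ t, 1 ≤ t → Indep k deg u (fun _ => True) t] := by
  have hmono : ∀ (P : L → Prop) (t : ℕ), Indep k deg u (fun _ => True) t → Indep k deg u P t :=
    fun P t h s hs c a b hab => h s (fun l hl => ⟨trivial, (hs l hl).2⟩) c a b hab
  tfae_have 1 → 3 := fun h t ht => indep_of_sat hk hpos h0 ht fun s hs c => h _
  tfae_have 2 → 3 := fun h t ht => indep_of_full hk hpos h0 ht fun s hs c => h _ _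
  tfae_have 3 → 1 := fun h M => sat_of hpos h0 M fun t ht => hmono _ t (h t ht)
  tfae_have 3 → 2 := fun h M N => full_of hpos h0 M N fun t ht => hmono _ t (h t ht)
  tfae_finish

end ext

end Pool.Agent.TH426.MT
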