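import Pool.Agent.TH426.MT.Gen
import Pool.Agent.H297R2.InBakerThm

/-!
# Independence in degree one (Baker) and in degrees with at most one letter
-/

set_option autoImplicit false
set_option linter.unusedSectionVars false

namespace Pool.Agent.TH426.MT

open Finset Complex

/-- The numbers `α i` are multiplicatively independent. -/
def MulIndep {I : Type} (α : I → ℂ) : Prop :=
  ∀ (s : Finset I) (m : I → ℤ), ∏ i ∈ s, α i ^ m i = 1 → ∀ i ∈ s, m i = 0

variable {k : Type} [Field k] [Algebra k ℂ]

theorem exp_tau : Complex.exp tau = 1 := Complex.exp_two_pi_mul_I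

theorem log_indep (hk : ∀ x : k, IsAlgebraic ℚ (algebraMap k ℂ x)) {I : Type} {α lam : I → ℂ}
    (hα : ∀ i, IsAlgebraic ℚ (α i)) (hexp : ∀ i, Complex.exp (lam i) = α i)
    (hmul : MulIndep α) (s : Finset I) (c : I → k) (a b : k)
    (h : algebraMap k ℂ a + algebraMap k ℂ b * tau + ∑ i ∈ s, algebraMap k ℂ (c i) * lam i = 0) :
    a = 0 ∧ b = 0 ∧ ∀ i ∈ s, c i = 0 := by
  classical
  set ω : Option s → ℂ := fun o => o.elim tau (fun i => lam i) with hω
  have halg : ∀ o, IsAlgebraic ℚ (Complex.exp (ω o)) := by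
    intro o
    match o with
    | none =>
      show IsAlgebraic ℚ (Complex.exp tau)
      rw [exp_tau]; exact isAlgebraic_one
    | some i =>
      show IsAlgebraic ℚ (Complex.exp (lam i))
      rw [hexp]; exact hα i
  have hlin : LinearIndependent ℚ ω := by
    rw [← LinearIndependent.iff_fractionRing ℤ ℚ, Fintype.linearIndependent_iff]
    intro g hg
    rw [Fintype.sum_option] at hg
    have e1 : Complex.exp (g none • ω none) = 1 := by
      show Complex.exp (g none • tau) = 1
      rw [zsmul_eq_mul, Complex.exp_int_mul, exp_tau, one_zpow]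
    have e2 : Complex.exp (∑ i : s, g (some i) • ω (some i)) =
        ∏ i : s, α i ^ g (some i) := by
      rw [Complex.exp_sum]
      apply Finset.prod_congr rfl
      intro i _
      show Complex.exp (g (some i) • lam i) = _
      rw [zsmul_eq_mul, Complex.exp_int_mul, hexp]
    have e3 : ∏ i : s, α i ^ g (some i) = 1 := by
      have e0 := congrArg Complex.exp hg
      rw [Complex.exp_add, e1, one_mul, Complex.exp_zero, e2] at e0
      exact e0
    set m : I → ℤ := fun i => if hi : i ∈ s then g (some ⟨i, hi⟩) else 0 with hm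
    have e4 : ∏ i ∈ s, α i ^ m i = 1 := by
      rw [← e3, ← Finset.prod_coe_sort s (fun i => α i ^ m i)]
      apply Finset.prod_congr rfl
      intro i _
      simp only [hm]
      rw [dif_pos i.2]
    have e5 := hmul s m e4
    have e6 : ∀ i : s, g (some i) = 0 := by
      intro i
      have := e5 i i.2
      simp only [hm] at this
      rw [dif_pos i.2] at this
      exact this
    have e7 : g none = 0 := by
      have h1 : (∑ i : s, g (some i) • ω (some i)) = 0 :=
        Finset.sum_eq_zero fun i _ => by rw [e6 i, zero_smul]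
      rw [h1, add_zero] at hg
      have h2 : g none • tau = 0 := hg
      rcases smul_eq_zero.1 h2 with h3 | h3
      · exact h3
      · exact absurd h3 tau_ne
    intro o
    match o with
    | none => exact e7
    | some i => exact e6 i
  have hsum : algebraMap k ℂ a + ∑ o : Option s,
      (o.elim (algebraMap k ℂ b) (fun i => algebraMap k ℂ (c i)) : ℂ) * ω o = 0 := by
    rw [Fintype.sum_option]
    show algebraMap k ℂ a + (algebraMap k ℂ b * tau + ∑ i : s, algebraMap k ℂ (c i) * lam i) = 0
    rw [Finset.sum_coe_sort s (fun i => algebraMap k ℂ (c i) * lam i), ← add_assoc]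
    exact h
  obtain ⟨h1, h2⟩ := Pool.Agent.H297R2.baker_inhom ω halg hlin (algebraMap k ℂ a) (hk a)
    (fun o => o.elim (algebraMap k ℂ b) (fun i => algebraMap k ℂ (c i)))
    (by
      intro o
      match o with
      | none => exact hk b
      | some i => exact hk (c i)) hsum
  refine ⟨(map_eq_zero _).1 h1, ?_, ?_⟩
  · have := h2 none
    exact (map_eq_zero _).1 this
  · intro i hi
    have := h2 (some ⟨i, hi⟩)
    exact (map_eq_zero _).1 this

variable {L : Type} {deg : L → ℕ}

theorem indep_of_unique (hk : ∀ x : k, IsAlgebraic ℚ (algebraMap k ℂ x)) {u : List L → ℂ}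
    {P : L → Prop} {t : ℕ} (ht : 1 ≤ t)
    (huniq : ∀ l l', P l → P l' → deg l = t → deg l' = t → l = l')
    (hz : ∀ l, P l → deg l = t → ∀ a b : k,
      u [l] ≠ algebraMap k ℂ a + algebraMap k ℂ b * tau ^ t) : Indep k deg u P t := by
  classical
  intro s hs c a b h
  change algebraMap k ℂ a + algebraMap k ℂ b * tau ^ t +
      ∑ l ∈ s, algebraMap k ℂ (c l) * u [l] = 0 at h
  rcases s.eq_empty_or_nonempty with rfl | ⟨l0, hl0⟩
  · rw [Finset.sum_empty, add_zero] at h
    obtain ⟨h1, h2⟩ := tau_pow_indep hk ht h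
    exact ⟨h1, h2, fun l hl => absurd hl (Finset.notMem_empty l)⟩
  · have hone : s = {l0} := by
      ext l
      rw [Finset.mem_singleton]
      constructor
      · intro hl
        exact huniq _ _ (hs l hl).1 (hs l0 hl0).1 (hs l hl).2 (hs l0 hl0).2
      · rintro rfl
        exact hl0
    rw [hone, Finset.sum_singleton] at h
    have hc : c l0 = 0 := by
      by_contra hc
      have hc' : algebraMap k ℂ (c l0) ≠ 0 := by
        rwa [Ne, map_eq_zero]
      apply hz l0 (hs l0 hl0).1 (hs l0 hl0).2 (-a / c l0) (-b / c l0)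
      rw [map_div₀, map_div₀, map_neg, map_neg]
      field_simp
      linear_combination h
    rw [hc, map_zero, zero_mul, add_zero] at h
    obtain ⟨h1, h2⟩ := tau_pow_indep hk ht h
    refine ⟨h1, h2, fun l hl => ?_⟩
    rw [hone, Finset.mem_singleton] at hl
    rw [hl, hc]

/-- Degree one, letters of a sum type. -/
theorem indep_one (hk : ∀ x : k, IsAlgebraic ℚ (algebraMap k ℂ x)) {I J : Type} {degJ : J → ℕ}
    (hJ : ∀ j, 2 ≤ degJ j) {α lam : I → ℂ} (hα : ∀ i, IsAlgebraic ℚ (α i))
    (hexp : ∀ i, Complex.exp (lam i) = α i) (hmul : MulIndep α) {u : List (I ⊕ J) → ℂ}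
    (h1 : ∀ i, u [Sum.inl i] = lam i) (P : I ⊕ J → Prop) :
    Indep k (Sum.elim (fun _ : I => 1) degJ) u P 1 := by
  classical
  intro s hs c a b h
  change algebraMap k ℂ a + algebraMap k ℂ b * tau ^ 1 +
      ∑ l ∈ s, algebraMap k ℂ (c l) * u [l] = 0 at h
  have hl : ∀ l ∈ s, ∃ i, l = Sum.inl i := by
    intro l hl
    rcases l with i | j
    · exact ⟨i, rfl⟩
    · have h2 := (hs _ hl).2
      have h3 := hJ j
      simp only [Sum.elim_inr] at h2
      omega
  set s' : Finset I := s.preimage Sum.inl Sum.inl_injective.injOn with hs'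
  have hsum : ∑ i ∈ s', algebraMap k ℂ (c (Sum.inl i)) * lam i =
      ∑ l ∈ s, algebraMap k ℂ (c l) * u [l] := by
    rw [hs', ← Finset.sum_preimage Sum.inl s Sum.inl_injective.injOn
      (fun l => algebraMap k ℂ (c l) * u [l])]
    · apply Finset.sum_congr rfl
      intro i _
      rw [h1]
    · intro l hls hr
      obtain ⟨i, rfl⟩ := hl l hls
      exact absurd ⟨i, rfl⟩ hr
  rw [← hsum, pow_one] at h
  obtain ⟨h3, h4, h5⟩ := log_indep hk hα hexp hmul s' (fun i => c (Sum.inl i)) a b h
  refine ⟨h3, h4, ?_⟩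
  intro l hls
  obtain ⟨i, rfl⟩ := hl l hls
  exact h5 i (by rw [hs', Finset.mem_preimage]; exact hls)

/-- Real parts in odd degrees. -/
theorem real_of_odd {x : ℝ} {a b : ℚ} {n : ℕ}
    (h : (x : ℂ) = algebraMap ℚ ℂ a + algebraMap ℚ ℂ b * tau ^ (2 * n + 3)) : x = a := by
  have h1 := congrArg Complex.re h
  have h2 : (tau ^ (2 * n + 3)).re = 0 := by
    have : tau ^ (2 * n + 3) = (((2 * Real.pi) ^ (2 * n + 3) * (-1) ^ (n + 1) : ℝ) : ℂ) * I := by
      unfold tau
      rw [mul_pow, show 2 * n + 3 = 2 * (n + 1) + 1 by ring, pow_succ I, pow_mul I, I_sq]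
      push_cast
      ring
    rw [this, Complex.re_ofReal_mul, Complex.I_re, mul_zero]
  have h3 : (algebraMap ℚ ℂ b * tau ^ (2 * n + 3) : ℂ).re = 0 := by
    rw [show (algebraMap ℚ ℂ b : ℂ) = ((b : ℝ) : ℂ) by simp, Complex.re_ofReal_mul, h2, mul_zero]
  rw [Complex.add_re, h3, add_zero, Complex.ofReal_re] at h1
  rw [h1]
  simp

end Pool.Agent.TH426.MT
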