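import Pool.Agent.TH426.MT.Full
import Pool.Agent.H340R2.LW

/-!
# Independence of `1`, `(2πi)^t` and at most one further period in each degree
-/

set_option autoImplicit false
set_option linter.unusedSectionVars false

namespace Pool.Agent.TH426.MT

open Finset Complex

/-- `2πi` -/
noncomputable def tau : ℂ := 2 * Real.pi * I

theorem tau_ne : tau ≠ 0 := by
  unfold tau
  exact mul_ne_zero (mul_ne_zero two_ne_zero (by exact_mod_cast Real.pi_ne_zero)) I_ne_zero

theorem tau_tr : Transcendental ℚ tau := by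
  intro h
  apply Pool.Agent.H340R2.LW.transcendental_pi_complex
  have h1 : (Real.pi : ℂ) = tau * (2 * I)⁻¹ := by
    unfold tau
    field_simp
  rw [h1]
  apply h.mul
  apply IsAlgebraic.inv
  exact (isAlgebraic_algebraMap (R := ℚ) (A := ℂ) (2 : ℚ)).mul Pool.Agent.H340R2.LW.isAlgebraic_I |> (by simpa using ·)

theorem tau_pow_indep {k : Type*} [Field k] [Algebra k ℂ]
    (hk : ∀ x : k, IsAlgebraic ℚ (algebraMap k ℂ x)) {t : ℕ} (ht : 1 ≤ t) {a b : k}
    (h : algebraMap k ℂ a + algebraMap k ℂ b * tau ^ t = 0) : a = 0 ∧ b = 0 := by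
  have hb : b = 0 := by
    by_contra hb
    have hb' : algebraMap k ℂ b ≠ 0 := by
      rwa [Ne, map_eq_zero]
    have h1 : tau ^ t = -algebraMap k ℂ a * (algebraMap k ℂ b)⁻¹ := by
      field_simp
      linear_combination h
    have h2 : IsAlgebraic ℚ (tau ^ t) := by
      rw [h1]
      exact (hk a).neg.mul (hk b).inv
    exact tau_tr (IsAlgebraic.of_pow (by omega) h2)
  subst hb
  rw [map_zero, zero_mul, add_zero, map_eq_zero] at h
  exact ⟨h, rfl⟩

variable {k : Type*} [Field k] [Algebra k ℂ]
variable {L : Type*} {deg : L → ℕ}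
variable {ι : Type*} [Fintype ι] [DecidableEq ι]

/-- At most one letter in each degree. -/
theorem single_ind (hk : ∀ x : k, IsAlgebraic ℚ (algebraMap k ℂ x)) {σ : L → Matrix ι ι k}
    {u : List L → ℂ} (hinj : ∀ l l', deg l = deg l' → l = l') (hfin : {l | σ l ≠ 0}.Finite)
    (hz : ∀ l, σ l ≠ 0 → ∀ a b : k,
      u [l] ≠ algebraMap k ℂ a + algebraMap k ℂ b * tau ^ deg l) (t : ℕ) (ht : 1 ≤ t) :
    LinearIndependent k (fam deg σ u tau t) := by
  classical
  apply ind_of hfin
  intro s hs c a b h
  rcases s.eq_empty_or_nonempty with rfl | ⟨l0, hl0⟩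
  · rw [Finset.sum_empty, add_zero] at h
    obtain ⟨h1, h2⟩ := tau_pow_indep hk ht h
    exact ⟨h1, h2, fun l hl => absurd hl (Finset.notMem_empty l)⟩
  · have hone : s = {l0} := by
      ext l
      rw [Finset.mem_singleton]
      constructor
      · intro hl
        exact hinj _ _ ((hs l hl).2.trans (hs l0 hl0).2.symm)
      · rintro rfl
        exact hl0
    rw [hone, Finset.sum_singleton] at h
    have hc : c l0 = 0 := by
      by_contra hc
      have hc' : algebraMap k ℂ (c l0) ≠ 0 := by
        rwa [Ne, map_eq_zero]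
      apply hz l0 (hs l0 hl0).1 (-a / c l0) (-b / c l0)
      rw [(hs l0 hl0).2, map_div₀, map_div₀, map_neg, map_neg]
      field_simp
      linear_combination h
    rw [hc, map_zero, zero_mul, add_zero] at h
    obtain ⟨h1, h2⟩ := tau_pow_indep hk ht h
    refine ⟨h1, h2, fun l hl => ?_⟩
    rw [hone, Finset.mem_singleton] at hl
    rw [hl, hc]

/-- Finiteness of the active letters when the degree is injective. -/
theorem fin_of_inj {d : ι → ℤ} {σ : L → Matrix ι ι k} (hinj : ∀ l l', deg l = deg l' → l = l')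
    (hσ : ∀ l i j, σ l i j ≠ 0 → d i = d j + deg l) : {l | σ l ≠ 0}.Finite := by
  classical
  have hmaps : Set.MapsTo deg {l | σ l ≠ 0} (Set.Iic (2 * ∑ i, (d i).natAbs)) := by
    intro l hl
    have hex : ∃ i j, σ l i j ≠ 0 := by
      by_contra hcon
      push Not at hcon
      exact hl (by ext i j; exact hcon i j)
    obtain ⟨i, j, hij⟩ := hex
    have h0 := hσ l i j hij
    have h1 : (d i).natAbs ≤ ∑ i, (d i).natAbs :=
      Finset.single_le_sum (f := fun i => (d i).natAbs) (fun _ _ => Nat.zero_le _) (Finset.mem_univ i)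
    have h2 : (d j).natAbs ≤ ∑ i, (d i).natAbs :=
      Finset.single_le_sum (f := fun i => (d i).natAbs) (fun _ _ => Nat.zero_le _) (Finset.mem_univ j)
    rw [Set.mem_Iic]
    generalize hM : ∑ i, (d i).natAbs = M at h1 h2
    omega
  exact (Set.finite_Iic _).of_injOn hmaps (fun l _ l' _ h => hinj l l' h)

end Pool.Agent.TH426.MT
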